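import Pool.Agent.V1132.CN.KGen
import Pool.Agent.V1132.CN.Mod
import Pool.Agent.TH57.Thr.KRed
import Pool.Agent.TH57.Thr.VCK
import Pool.Agent.TH57.Thr.VCM
import Pool.Agent.TH6.PF.KSt

set_option autoImplicit false

/-! Let `Γ` be any group (torsion allowed). Every class of `K₁(ℤΓ)` and of `K₀(ℤΓ)` is represented
by matrices of operator norm arbitrarily close to `3 / √2` on `ℓ²(Γ)`. For a class which does not
lie in the subgroup generated by the images of the groups `K₁(ℤV)`, respectively `K₀(ℤV)`, `V`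
virtually cyclic, the least such norm is exactly `3 / √2`. -/

namespace Pool.Agent.Results.MP_e40716_gt.CriticalNorm

open TH57.Thr TH6.PF Pool.Agent.V1132.CN

/-! ### `K₁` -/

/-- The class of `A` in `K₁(ℤΓ)` contains a matrix of operator norm at most `c`. -/
def HasRep {Γ : Type} [Group Γ] {n : ℕ} (A : (Matrix (Fin n) (Fin n) (MonoidAlgebra ℤ Γ))ˣ)
    (c : ℝ) : Prop :=
  ∃ (m : ℕ) (B : (Matrix (Fin m) (Fin m) (MonoidAlgebra ℤ Γ))ˣ),
    SameK A B ∧ NormLE (B : Matrix (Fin m) (Fin m) (MonoidAlgebra ℤ Γ)) c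

/-- The least operator norm of the matrices in the class of `A` in `K₁(ℤΓ)`. -/
noncomputable def norm₁ {Γ : Type} [Group Γ] {n : ℕ}
    (A : (Matrix (Fin n) (Fin n) (MonoidAlgebra ℤ Γ))ˣ) : ℝ :=
  sInf {c : ℝ | 0 ≤ c ∧ HasRep A c}

/-- `K₁(ℤΓ)` is generated by the images of the groups `K₁(ℤV)`, `V` virtually cyclic. -/
def All₁ (Γ : Type) [Group Γ] : Prop :=
  ∀ (n : ℕ) (A : (Matrix (Fin n) (Fin n) (MonoidAlgebra ℤ Γ))ˣ), FromVC A

/-- The classes of the matrices of operator norm at most `c` lie in that subgroup. -/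
def Small₁ (Γ : Type) [Group Γ] (c : ℝ) : Prop :=
  ∀ (n : ℕ) (A : (Matrix (Fin n) (Fin n) (MonoidAlgebra ℤ Γ))ˣ),
    NormLE (A : Matrix (Fin n) (Fin n) (MonoidAlgebra ℤ Γ)) c → FromVC A

/-! ### `K₀` -/

/-- `P` has a presentation matrix of operator norm at most `c`. -/
def HasPres (Γ : Type) [Group Γ] (P : Type) [AddCommGroup P] [Module (MonoidAlgebra ℤ Γ) P]
    (c : ℝ) : Prop :=
  ∃ (m n : ℕ) (A : Matrix (Fin m) (Fin n) (MonoidAlgebra ℤ Γ)),
    NormLE A c ∧ Nonempty (P ≃ₗ[MonoidAlgebra ℤ Γ] Coker A)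

/-- The least operator norm of a presentation matrix of a module stably isomorphic to `P`. -/
noncomputable def norm₀ (Γ : Type) [Group Γ] (P : Type) [AddCommGroup P]
    [Module (MonoidAlgebra ℤ Γ) P] : ℝ :=
  sInf {c : ℝ | 0 ≤ c ∧ ∃ (m n : ℕ) (A : Matrix (Fin m) (Fin n) (MonoidAlgebra ℤ Γ)),
    NormLE A c ∧ StablyIso (MonoidAlgebra ℤ Γ) P (Coker A)}

/-- `P` is stably isomorphic to a finite direct sum of modules which are induced from finitely
presented projective modules over group rings of virtually cyclic subgroups; for a finitely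
generated projective module this means that its class lies in the subgroup of `K₀(ℤΓ)` generated by
the images of the groups `K₀(ℤV)`, `V` virtually cyclic. -/
def FromVC₀ (Γ : Type) [Group Γ] (P : Type) [AddCommGroup P] [Module (MonoidAlgebra ℤ Γ) P] :
    Prop :=
  ∃ (k : ℕ) (V : Fin k → Subgroup Γ) (p q : Fin k → ℕ)
    (B : ∀ b, Matrix (Fin (p b)) (Fin (q b)) (MonoidAlgebra ℤ (V b))),
    (∀ b, IsVC (V b)) ∧ (∀ b, Module.Projective (MonoidAlgebra ℤ (V b)) (Coker (B b))) ∧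
    StablyIso (MonoidAlgebra ℤ Γ) P (∀ b, Coker (indM (B b)))

/-- `K₀(ℤΓ)` is generated by the images of the groups `K₀(ℤV)`, `V` virtually cyclic. -/
def All₀ (Γ : Type) [Group Γ] : Prop :=
  ∀ (P : Type) [AddCommGroup P] [Module (MonoidAlgebra ℤ Γ) P],
    Module.Finite (MonoidAlgebra ℤ Γ) P → Module.Projective (MonoidAlgebra ℤ Γ) P → FromVC₀ Γ P

/-- The classes of the projective modules which have presentation matrices of operator norm at most
`c` lie in that subgroup. -/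
def Small₀ (Γ : Type) [Group Γ] (c : ℝ) : Prop :=
  ∀ (m n : ℕ) (A : Matrix (Fin m) (Fin n) (MonoidAlgebra ℤ Γ)), NormLE A c →
    Module.Projective (MonoidAlgebra ℤ Γ) (Coker A) → FromVC₀ Γ (Coker A)

/-! ### Proofs -/

theorem one_lt_thr : (1 : ℝ) < 3 / Real.sqrt 2 := by
  by_contra h
  push Not at h
  have h2 : (3 / Real.sqrt 2) ^ 2 ≤ 1 ^ 2 := pow_le_pow_left₀ thr_pos.le h 2
  rw [thr_sq] at h2
  norm_num at h2

theorem norm_mono {Γ : Type} [Group Γ] {κ μ : Type} [Fintype κ] [Fintype μ]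
    (A : Matrix κ μ (MonoidAlgebra ℤ Γ)) (c d : ℝ) (h0 : 0 ≤ c) (h : c ≤ d)
    (hA : NormLE A c) : NormLE A d := fun x =>
  (hA x).trans (mul_le_mul_of_nonneg_right (pow_le_pow_left₀ h0 h 2) (by
      unfold normSq
      exact Finset.sum_nonneg fun _ _ => Finset.sum_nonneg fun _ _ => sq_nonneg _))

theorem VCG_le {Γ : Type} [Group Γ] {κ : Type} [Fintype κ] [DecidableEq κ] :
    VCG ℤ Γ κ ≤ VCGen ℤ Γ κ := by
  refine iSup_le ?_
  rintro ⟨V, hV⟩ x ⟨y, rfl⟩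
  exact Subgroup.subset_closure ⟨V, y, hV, rfl⟩

theorem hasRep {Γ : Type} [Group Γ] {n : ℕ}
    (A : (Matrix (Fin n) (Fin n) (MonoidAlgebra ℤ Γ))ˣ) (c : ℝ) (hc : 3 / Real.sqrt 2 < c) :
    HasRep A c := by
  obtain ⟨m, C, hC, hN⟩ := reduction_fin n A c (sq_gt_of_gt hc).2
  have e : Fin (n + m) ≃ Fin n ⊕ Fin m := finSumFinEquiv.symm
  obtain ⟨B0, hB0⟩ : ∃ B0, B0 = Units.map (stm (Fin m)) A * C := ⟨_, rfl⟩
  refine ⟨n + m, Units.map (re e) B0, SameK_of_SC _ _ ?_, ?_⟩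
  · refine ⟨Fin m, Fin 0, inferInstance, inferInstance, inferInstance, inferInstance,
      e.symm.trans (Equiv.sumEmpty _ (Fin 0)).symm, C⁻¹, inv_mem hC, ?_⟩
    rw [re_trans', re_empty]
    have h3 : Units.map (re e.symm) (Units.map (re e) B0) = B0 := re_self e.symm B0
    rw [h3, hB0, mul_inv_cancel_right]
  · refine NormLE_re e _ c ?_
    rw [hB0]
    exact hN

theorem below₁ {Γ : Type} [Group Γ] {n : ℕ}
    (A : (Matrix (Fin n) (Fin n) (MonoidAlgebra ℤ Γ))ˣ) (c : ℝ) (h0 : 0 ≤ c)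
    (hc : c < 3 / Real.sqrt 2) (h : HasRep A c) : FromVC A := by
  obtain ⟨m, B, hAB, hB⟩ := h
  have h2 := (small_form B (max c 1) (lt_max_of_lt_right one_pos)
    (sq_lt_of_lt (le_max_of_le_left h0) (max_lt hc one_lt_thr))
    (norm_mono _ c _ h0 (le_max_left _ _) hB)).2
  exact TW_fromVC A (TW_SC A B (SC_of_SameK A B hAB) (TW_of_mem B
    (Subgroup.mem_sup_left (VCG_le h2))))

theorem below₀ (Γ : Type) [Group Γ] (P : Type) [AddCommGroup P] [Module (MonoidAlgebra ℤ Γ) P]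
    (hP : Module.Projective (MonoidAlgebra ℤ Γ) P)
    (m n : ℕ) (A : Matrix (Fin m) (Fin n) (MonoidAlgebra ℤ Γ))
    (e : StablyIso (MonoidAlgebra ℤ Γ) P (Coker A))
    (c : ℝ) (hc0 : 0 ≤ c) (hc : c < 3 / Real.sqrt 2) (hA : NormLE A c) : FromVC₀ Γ P := by
  have hQ := e.projective hP
  obtain ⟨k, V, p, q, B, h1, ⟨h2⟩, h3⟩ := module_small Γ (Coker A) m n A (LinearEquiv.refl _ _)
    (max c 1) (lt_max_of_lt_right one_pos)
    (sq_lt_of_lt (le_max_of_le_left hc0) (max_lt hc one_lt_thr))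
    (norm_mono A c _ hc0 (le_max_left _ _) hA)
  obtain ⟨a, b, ⟨g⟩⟩ := e
  exact ⟨k, V, p, q, B, h1, h3 hQ, a, b, ⟨g.trans (h2.prodCongr (LinearEquiv.refl _ _))⟩⟩

theorem result :
    -- `K₁`, every group, every invertible matrix
    (∀ (Γ : Type) [Group Γ] (n : ℕ) (A : (Matrix (Fin n) (Fin n) (MonoidAlgebra ℤ Γ))ˣ),
      (∀ c : ℝ, 3 / Real.sqrt 2 < c → HasRep A c) ∧
      0 ≤ norm₁ A ∧ norm₁ A ≤ 3 / Real.sqrt 2 ∧
      (¬ FromVC A → norm₁ A = 3 / Real.sqrt 2)) ∧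
    -- `K₀`, every group, every finitely generated projective module
    (∀ (Γ : Type) [Group Γ] (P : Type) [AddCommGroup P] [Module (MonoidAlgebra ℤ Γ) P],
      Module.Finite (MonoidAlgebra ℤ Γ) P → Module.Projective (MonoidAlgebra ℤ Γ) P →
      (∀ c : ℝ, 3 / Real.sqrt 2 < c → HasPres Γ P c) ∧
      0 ≤ norm₀ Γ P ∧ norm₀ Γ P ≤ 3 / Real.sqrt 2 ∧
      (¬ FromVC₀ Γ P → norm₀ Γ P = 3 / Real.sqrt 2)) ∧
    -- above `3 / √2` a bound on the norm is no restriction, below it the conclusion holds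
    (∀ (Γ : Type) [Group Γ] (c : ℝ), 0 ≤ c →
      (3 / Real.sqrt 2 < c → (Small₁ Γ c ↔ All₁ Γ) ∧ (Small₀ Γ c ↔ All₀ Γ)) ∧
      (c < 3 / Real.sqrt 2 → Small₁ Γ c ∧ Small₀ Γ c)) := by
  have above : ∀ (Γ : Type) [Group Γ] (P : Type) [AddCommGroup P]
      [Module (MonoidAlgebra ℤ Γ) P], Module.Finite (MonoidAlgebra ℤ Γ) P →
      Module.Projective (MonoidAlgebra ℤ Γ) P →
      ∀ c : ℝ, 3 / Real.sqrt 2 < c → HasPres Γ P c := by
    intro Γ _ P _ _ hfin hproj c hc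
    exact pres_red P (Module.finitePresentation_of_projective _ _) c (sq_gt_of_gt hc).2
  refine ⟨fun Γ _ n A => ⟨fun c hc => hasRep A c hc, Real.sInf_nonneg fun c hc => hc.1,
    sInf_le_thr (fun c hc => hc.1) _ fun c hc => ⟨(sq_gt_of_gt hc).1.le, hasRep A c hc⟩,
    fun hA => ?_⟩, fun Γ _ P _ _ hfin hproj => ⟨above Γ P hfin hproj,
    Real.sInf_nonneg fun c hc => hc.1, ?_, fun hP => ?_⟩, fun Γ _ c h0 => ⟨fun hc =>
    ⟨⟨fun h n A => ?_, fun h n A _ => h n A⟩, ⟨fun h P _ _ hfin hproj => ?_,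
    fun h m n A _ hproj => h (Coker A) inferInstance hproj⟩⟩, fun hc => ⟨fun n A hA => ?_,
    fun m n A hA hproj => ?_⟩⟩⟩
  · refine sInf_thr (fun c hc => hc.1) _ (fun c hc => ⟨(sq_gt_of_gt hc).1.le, hasRep A c hc⟩) ?_
    rintro c ⟨h0, h⟩
    by_contra hlt
    exact hA (below₁ A c h0 (not_le.1 hlt) h)
  · refine sInf_le_thr (fun c hc => hc.1) _ fun c hc => ?_
    obtain ⟨m, n, A, h1, ⟨h2⟩⟩ := above Γ P hfin hproj c hc
    exact ⟨(sq_gt_of_gt hc).1.le, m, n, A, h1, stablyIso_of_equiv h2⟩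
  · refine sInf_thr (fun c hc => hc.1) _ (fun c hc => ?_) ?_
    · obtain ⟨m, n, A, h1, ⟨h2⟩⟩ := above Γ P hfin hproj c hc
      exact ⟨(sq_gt_of_gt hc).1.le, m, n, A, h1, stablyIso_of_equiv h2⟩
    · rintro c ⟨h0, m, n, A, h1, h2⟩
      by_contra hlt
      exact hP (below₀ Γ P hproj m n A h2 c h0 (not_le.1 hlt) h1)
  · obtain ⟨m, B, hAB, hB⟩ := hasRep A c hc
    exact TW_fromVC A (TW_SC A B (SC_of_SameK A B hAB) (fromVC_TW B (h m B hB)))
  · obtain ⟨m, n, A, h1, ⟨h2⟩⟩ := above Γ P hfin hproj c hc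
    obtain ⟨k, V, p, q, B, h3, h4, a, b, ⟨g⟩⟩ := h m n A h1 (Module.Projective.of_equiv h2)
    exact ⟨k, V, p, q, B, h3, h4, a, b, ⟨(h2.prodCongr (LinearEquiv.refl _ _)).trans g⟩⟩
  · refine below₁ A c h0 hc ⟨n, A, ⟨0, 0, Equiv.refl _, 1, one_mem _, ?_⟩, hA⟩
    simp
  · exact below₀ Γ (Coker A) hproj m n A (stablyIso_of_equiv (LinearEquiv.refl _ _)) c h0 hc hA

end Pool.Agent.Results.MP_e40716_gt.CriticalNorm
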